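import Mathlib

/-!
# Shortest flip paths of `k`-triangulations may flip a common edge

Negative answer to Q1 of MP_1d99bd_co, in its (known to be equivalent) form for flip graphs of
`k`-triangulations of convex polygons: there are two `2`-triangulations of the convex octagon at
distance `4` in the flip graph, with a common edge which is flipped by a shortest path.
-/

set_option autoImplicit false

namespace Pool.Agent.Results.MP_1d99bd_co.OctagonGeodesic

/-- The edges of the convex `n`-gon: pairs `(i, j)` with `i < j`, where the vertices of the `n`-gon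
are `0, 1, ..., n - 1` in their cyclic order (boundary edges included). -/
abbrev Edge (n : ℕ) : Type := {e : Fin n × Fin n // e.1 < e.2}

/-- Two edges cross if they have four distinct end points which alternate on the `n`-gon. -/
def Cross {n : ℕ} (e f : Edge n) : Prop :=
  (e.1.1 < f.1.1 ∧ f.1.1 < e.1.2 ∧ e.1.2 < f.1.2) ∨
  (f.1.1 < e.1.1 ∧ e.1.1 < f.1.2 ∧ f.1.2 < e.1.2)

instance {n : ℕ} (e f : Edge n) : Decidable (Cross e f) := by unfold Cross; infer_instance

/-- `T` contains no `m`-crossing, i.e. no `m` pairwise crossing edges. -/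
def CrossingFree {n : ℕ} (m : ℕ) (T : Finset (Edge n)) : Prop :=
  ¬ ∃ S ⊆ T, S.card = m ∧ ∀ e ∈ S, ∀ f ∈ S, e ≠ f → Cross e f

/-- A `k`-triangulation of the convex `n`-gon is an inclusion maximal set of edges without
`(k + 1)`-crossing. -/
def IsKTriangulation {n : ℕ} (k : ℕ) (T : Finset (Edge n)) : Prop :=
  CrossingFree (k + 1) T ∧ ∀ S : Finset (Edge n), T ⊆ S → CrossingFree (k + 1) S → S = T

/-- The flip graph of the `k`-triangulations of the convex `n`-gon: two `k`-triangulations are
adjacent if they differ by a flip, i.e. one is obtained from the other by exchanging one edge with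
another one. -/
def flipGraph (k n : ℕ) : SimpleGraph {T : Finset (Edge n) // IsKTriangulation k T} where
  Adj T T' := (T.1 \ T'.1).card = 1 ∧ (T'.1 \ T.1).card = 1
  symm := ⟨fun _ _ h => ⟨h.2, h.1⟩⟩
  loopless := ⟨fun T h => by simp at h⟩

/-! ### A criterion for `2`-triangulations -/

theorem crossingFree_three {n : ℕ} {T : Finset (Edge n)}
    (h : ∀ a ∈ T, ∀ b ∈ T, Cross a b → ∀ c ∈ T, Cross a c → ¬ Cross b c) : CrossingFree 3 T := by
  rintro ⟨S, hST, hS, hc⟩
  obtain ⟨a, b, c, hab, hac, hbc, rfl⟩ := Finset.card_eq_three.1 hS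
  have ha : a ∈ ({a, b, c} : Finset (Edge n)) := by simp
  have hb : b ∈ ({a, b, c} : Finset (Edge n)) := by simp
  have hc' : c ∈ ({a, b, c} : Finset (Edge n)) := by simp
  exact h a (hST ha) b (hST hb) (hc a ha b hb hab) c (hST hc') (hc a ha c hc' hac)
    (hc b hb c hc' hbc)

theorem cross_ne {n : ℕ} {a b : Edge n} (h : Cross a b) : a ≠ b := by
  rintro rfl
  rcases h with h | h
  · exact absurd h.1 (lt_irrefl _)
  · exact absurd h.1 (lt_irrefl _)

theorem cross_symm {n : ℕ} {a b : Edge n} (h : Cross a b) : Cross b a := by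
  rcases h with h | h
  · exact Or.inr h
  · exact Or.inl h

theorem not_crossingFree {n : ℕ} {T : Finset (Edge n)} {a b c : Edge n} (ha : a ∈ T) (hb : b ∈ T)
    (hc : c ∈ T) (h1 : Cross a b) (h2 : Cross a c) (h3 : Cross b c) : ¬ CrossingFree 3 T := by
  intro h
  refine h ⟨{a, b, c}, ?_, ?_, ?_⟩
  · intro x hx
    simp only [Finset.mem_insert, Finset.mem_singleton] at hx
    rcases hx with rfl | rfl | rfl <;> assumption
  · rw [Finset.card_eq_three]
    exact ⟨a, b, c, cross_ne h1, cross_ne h2, cross_ne h3, rfl⟩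
  · intro e he f hf hef
    simp only [Finset.mem_insert, Finset.mem_singleton] at he hf
    rcases he with rfl | rfl | rfl <;> rcases hf with rfl | rfl | rfl
    · exact absurd rfl hef
    · exact h1
    · exact h2
    · exact cross_symm h1
    · exact absurd rfl hef
    · exact h3
    · exact cross_symm h2
    · exact cross_symm h3
    · exact absurd rfl hef

theorem isTriangulation {n : ℕ} {T : Finset (Edge n)}
    (h : ∀ a ∈ T, ∀ b ∈ T, Cross a b → ∀ c ∈ T, Cross a c → ¬ Cross b c)
    (hmax : ∀ a : Edge n, a ∉ T → ∃ b ∈ T, Cross a b ∧ ∃ c ∈ T, Cross a c ∧ Cross b c) :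
    IsKTriangulation 2 T := by
  refine ⟨crossingFree_three h, fun S hTS hS => ?_⟩
  refine (Finset.Subset.antisymm hTS ?_).symm
  intro a haS
  by_contra haT
  obtain ⟨b, hb, h1, c, hc, h2, h3⟩ := hmax a haT
  exact not_crossingFree haS (hTS hb) (hTS hc) h1 h2 h3 hS

/-! ### The five `2`-triangulations of the octagon -/

/-- the set of edges of the octagon given by: all edges `(i, j)` with `min (j - i) (8 - (j - i)) ≤ 2`
(which lie in no `3`-crossing), and the listed ones -/
def mk (l : List (ℕ × ℕ)) : Finset (Edge 8) :=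
  Finset.univ.filter fun e =>
    (e.1.2.val - e.1.1.val ≤ 2 ∨ 6 ≤ e.1.2.val - e.1.1.val) ∨ (e.1.1.val, e.1.2.val) ∈ l

def L0 : List (ℕ × ℕ) := [(0, 3), (0, 5), (0, 4), (1, 6), (1, 5), (2, 5)]
def L1 : List (ℕ × ℕ) := [(0, 3), (0, 5), (3, 6), (1, 6), (1, 5), (2, 5)]
def L2 : List (ℕ × ℕ) := [(0, 3), (0, 5), (3, 6), (3, 7), (1, 5), (2, 5)]
def L3 : List (ℕ × ℕ) := [(0, 3), (0, 5), (3, 6), (3, 7), (2, 7), (2, 5)]
def L4 : List (ℕ × ℕ) := [(0, 3), (0, 5), (3, 6), (3, 7), (2, 7), (0, 4)]

theorem tri0 : IsKTriangulation 2 (mk L0) := isTriangulation (by decide +kernel) (by decide +kernel)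
theorem tri1 : IsKTriangulation 2 (mk L1) := isTriangulation (by decide +kernel) (by decide +kernel)
theorem tri2 : IsKTriangulation 2 (mk L2) := isTriangulation (by decide +kernel) (by decide +kernel)
theorem tri3 : IsKTriangulation 2 (mk L3) := isTriangulation (by decide +kernel) (by decide +kernel)
theorem tri4 : IsKTriangulation 2 (mk L4) := isTriangulation (by decide +kernel) (by decide +kernel)

abbrev V := {T : Finset (Edge 8) // IsKTriangulation 2 T}

def T0 : V := ⟨mk L0, tri0⟩
def T1 : V := ⟨mk L1, tri1⟩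
def T2 : V := ⟨mk L2, tri2⟩
def T3 : V := ⟨mk L3, tri3⟩
def T4 : V := ⟨mk L4, tri4⟩

theorem adj01 : (flipGraph 2 8).Adj T0 T1 := by
  constructor
  · show (mk L0 \ mk L1).card = 1
    decide +kernel
  · show (mk L1 \ mk L0).card = 1
    decide +kernel
theorem adj12 : (flipGraph 2 8).Adj T1 T2 := by
  constructor
  · show (mk L1 \ mk L2).card = 1
    decide +kernel
  · show (mk L2 \ mk L1).card = 1
    decide +kernel
theorem adj23 : (flipGraph 2 8).Adj T2 T3 := by
  constructor
  · show (mk L2 \ mk L3).card = 1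
    decide +kernel
  · show (mk L3 \ mk L2).card = 1
    decide +kernel
theorem adj34 : (flipGraph 2 8).Adj T3 T4 := by
  constructor
  · show (mk L3 \ mk L4).card = 1
    decide +kernel
  · show (mk L4 \ mk L3).card = 1
    decide +kernel

/-- the path `T0, T1, T2, T3, T4` -/
def path : (flipGraph 2 8).Walk T0 T4 :=
  .cons adj01 (.cons adj12 (.cons adj23 (.cons adj34 .nil)))

/-! ### The distance of `T0` and `T4` -/

/-- along a walk the difference grows by at most one with each step -/
theorem sdiff_le {S S' : V} (p : (flipGraph 2 8).Walk S S') : (S'.1 \ S.1).card ≤ p.length := by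
  induction p with
  | nil => simp
  | @cons a b c h p ih =>
    rw [SimpleGraph.Walk.length_cons]
    have h1 : c.1 \ a.1 ⊆ (c.1 \ b.1) ∪ (b.1 \ a.1) := by
      intro x hx
      rw [Finset.mem_sdiff] at hx
      rw [Finset.mem_union, Finset.mem_sdiff, Finset.mem_sdiff]
      by_cases hb : x ∈ b.1
      · exact Or.inr ⟨hb, hx.2⟩
      · exact Or.inl ⟨hx.1, hb⟩
    have h2 := (Finset.card_le_card h1).trans (Finset.card_union_le _ _)
    have h3 := h.2
    omega

theorem sdiff_le' {S S' : V} (p : (flipGraph 2 8).Walk S S') : (S.1 \ S'.1).card ≤ p.length := by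
  rw [← SimpleGraph.Walk.length_reverse]
  exact sdiff_le p.reverse

/-- no exchange of an edge of `T0 \ T4` with an edge of `T4 \ T0` avoids `3`-crossings -/
theorem blocked : ∀ e ∈ mk L0 \ mk L4, ∀ f ∈ mk L4 \ mk L0,
    ∃ b ∈ (mk L0).erase e, Cross f b ∧ ∃ c ∈ (mk L0).erase e, Cross f c ∧ Cross b c := by
  decide +kernel

theorem card40 : (mk L4 \ mk L0).card = 3 := by decide +kernel
theorem card04 : (mk L0 \ mk L4).card = 3 := by decide +kernel

theorem four_le {S S' : V} (p : (flipGraph 2 8).Walk S S') (hS : S = T0) (hS' : S' = T4) :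
    4 ≤ p.length := by
  by_contra hlt
  have h3 : 3 ≤ p.length := by
    have h1 := sdiff_le p
    have h : (S'.1 \ S.1).card = 3 := by rw [hS, hS']; exact card40
    omega
  cases p with
  | nil => simp at h3
  | @cons _ A _ hadj q =>
    subst hS hS'
    rw [SimpleGraph.Walk.length_cons] at hlt h3
    have hq : q.length = 2 := by omega
    have hq1 := sdiff_le' q
    rw [hq] at hq1
    -- the exchanged edges
    obtain ⟨e, he⟩ := Finset.card_eq_one.1 hadj.1
    obtain ⟨f, hf⟩ := Finset.card_eq_one.1 hadj.2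
    have heT : e ∈ T0.1 ∧ e ∉ A.1 := by
      have : e ∈ T0.1 \ A.1 := by rw [he]; simp
      exact Finset.mem_sdiff.1 this
    have hfA : f ∈ A.1 ∧ f ∉ T0.1 := by
      have : f ∈ A.1 \ T0.1 := by rw [hf]; simp
      exact Finset.mem_sdiff.1 this
    have hsub : (T0.1).erase e ⊆ A.1 := by
      intro x hx
      rw [Finset.mem_erase] at hx
      by_contra hxA
      have : x ∈ T0.1 \ A.1 := Finset.mem_sdiff.2 ⟨hx.2, hxA⟩
      rw [he, Finset.mem_singleton] at this
      exact hx.1 this
    have hc04 : (T0.1 \ T4.1).card = 3 := card04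
    -- `e` is not an edge of `T4`
    have he4 : e ∉ T4.1 := by
      intro h
      have : T0.1 \ T4.1 ⊆ A.1 \ T4.1 := by
        intro x hx
        rw [Finset.mem_sdiff] at hx ⊢
        refine ⟨hsub (Finset.mem_erase.2 ⟨?_, hx.1⟩), hx.2⟩
        rintro rfl
        exact hx.2 h
      have := Finset.card_le_card this
      omega
    -- `f` is an edge of `T4`
    have hf4 : f ∈ T4.1 := by
      by_contra h
      have h1 : insert f ((T0.1 \ T4.1).erase e) ⊆ A.1 \ T4.1 := by
        intro x hx
        rw [Finset.mem_insert, Finset.mem_erase, Finset.mem_sdiff] at hx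
        rw [Finset.mem_sdiff]
        rcases hx with rfl | ⟨h2, h3, h4⟩
        · exact ⟨hfA.1, h⟩
        · exact ⟨hsub (Finset.mem_erase.2 ⟨h2, h3⟩), h4⟩
      have h2 := Finset.card_le_card h1
      rw [Finset.card_insert_of_notMem (by
        intro hx
        rw [Finset.mem_erase, Finset.mem_sdiff] at hx
        exact hfA.2 hx.2.1), Finset.card_erase_of_mem (Finset.mem_sdiff.2 ⟨heT.1, he4⟩)] at h2
      omega
    obtain ⟨b, hb, h1, c, hc, h2, h3'⟩ := blocked e (Finset.mem_sdiff.2 ⟨heT.1, he4⟩) f
      (Finset.mem_sdiff.2 ⟨hf4, hfA.2⟩)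
    exact not_crossingFree hfA.1 (hsub hb) (hsub hc) h1 h2 h3' A.2.1

/-- the diagonal `{0, 4}` -/
def e04 : Edge 8 := ⟨(0, 4), by decide⟩

/-- **Negative answer to Q1** (for flip graphs of `k`-triangulations of convex polygons). There are
`k`, `n`, two `k`-triangulations `T`, `T'` of the convex `n`-gon with a common edge `e`, and a
shortest path from `T` to `T'` in the flip graph one of whose steps is the flip of `e`. -/
theorem result : ∃ (k n : ℕ) (T T' : {T : Finset (Edge n) // IsKTriangulation k T})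
    (p : (flipGraph k n).Walk T T') (e : Edge n),
    p.length = (flipGraph k n).dist T T' ∧ e ∈ T.1 ∧ e ∈ T'.1 ∧
      ∃ i < p.length, e ∈ (p.getVert i).1 ∧ e ∉ (p.getVert (i + 1)).1 := by
  refine ⟨2, 8, T0, T4, path, e04, ?_, ?_, ?_, 0, ?_, ?_, ?_⟩
  · refine le_antisymm ?_ (SimpleGraph.dist_le path)
    obtain ⟨q, hq⟩ := (SimpleGraph.Walk.reachable path).exists_walk_length_eq_dist
    rw [← hq]
    exact four_le q rfl rfl
  · show e04 ∈ mk L0
    decide +kernel
  · show e04 ∈ mk L4
    decide +kernel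
  · show 0 < 4
    norm_num
  · show e04 ∈ mk L0
    decide +kernel
  · show e04 ∉ mk L1
    decide +kernel

end Pool.Agent.Results.MP_1d99bd_co.OctagonGeodesic
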